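import Mathlib
import Pool.Agent.Helper255.BN.Planar

/-!
# A weighted Turán inequality for planar vectors (MP_f90287_co)

The half-plane case is `Pool.Agent.Helper255.BN.planar_ineq`.  Here the full plane is reduced to it by
splitting the vectors along a line through the origin whose unit direction `e` satisfies
`∑ ⟨v i, e⟩ |⟨v i, e⟩| = 0`.
-/

set_option autoImplicit false

open Finset

namespace Pool.Agent.H972R4.PlanarTuran

/-- A unit direction `(c, s)` with `∑ x |x| = 0` for `x i = ⟨v i, (c,s)⟩`. -/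
theorem exists_dir {V : Type*} [Fintype V] (v : V → ℝ × ℝ) :
    ∃ c s : ℝ, c ^ 2 + s ^ 2 = 1 ∧
      ∑ i, ((v i).1 * c + (v i).2 * s) * |(v i).1 * c + (v i).2 * s| = 0 := by
  set S : ℝ → ℝ := fun φ =>
    ∑ i, ((v i).1 * Real.cos φ + (v i).2 * Real.sin φ) *
      |(v i).1 * Real.cos φ + (v i).2 * Real.sin φ| with hS
  have hcont : Continuous S := by
    rw [hS]
    refine continuous_finsetSum _ fun i _ => ?_
    fun_prop
  have hpi : S Real.pi = - S 0 := by
    simp only [hS, Real.cos_pi, Real.sin_pi, Real.cos_zero, Real.sin_zero, mul_zero, add_zero,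
      mul_one, mul_neg, neg_mul, abs_neg, Finset.sum_neg_distrib]
  have hmem : (0 : ℝ) ∈ Set.range S := by
    rcases le_total (S 0) 0 with h | h
    · exact mem_range_of_exists_le_of_exists_ge hcont ⟨0, h⟩ ⟨Real.pi, by rw [hpi]; linarith⟩
    · exact mem_range_of_exists_le_of_exists_ge hcont ⟨Real.pi, by rw [hpi]; linarith⟩ ⟨0, h⟩
  obtain ⟨φ, hφ⟩ := hmem
  exact ⟨Real.cos φ, Real.sin φ, Real.cos_sq_add_sin_sq φ, hφ⟩

/-- Pointwise estimate of the cross terms. -/
theorem cross_le (a b y z : ℝ) (hyz : y * z ≤ 0) :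
    (max 0 (a * b + y * z)) ^ 2 ≤
      1 / 2 * (a * b + y * z) ^ 2 + 1 / 2 * ((a * |a|) * (b * |b|)) := by
  have h1 : (a * |a|) * (b * |b|) = (a * b) * |a * b| := by
    rw [abs_mul]; ring
  rw [h1]
  rcases le_total 0 (a * b) with h | h
  · rw [abs_of_nonneg h]
    rcases le_total 0 (a * b + y * z) with h2 | h2
    · rw [max_eq_right h2]
      nlinarith
    · rw [max_eq_left h2]
      nlinarith [sq_nonneg (a * b + y * z), mul_nonneg h h]
  · rw [abs_of_nonpos h, max_eq_left (by linarith)]
    nlinarith [mul_nonneg_of_nonpos_of_nonpos h hyz, sq_nonneg (y * z)]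

/-- The inequality for arbitrary planar vectors with positive parts, after the rotation. -/
theorem rotated {ι : Type*} [Fintype ι] [DecidableEq ι] (G : SimpleGraph ι) [DecidableRel G.Adj]
    (r : ℕ) (hr : 2 ≤ r) (hG : G.CliqueFree (r + 1)) (x y : ι → ℝ)
    (hx : ∑ i, x i * |x i| = 0) :
    ∑ i, ∑ j, (if G.Adj i j then (max 0 (x i * x j + y i * y j)) ^ 2 else 0)
      ≤ (1 - 1 / (r : ℝ)) * ∑ i, ∑ j, (x i * x j + y i * y j) ^ 2 := by
  set κ : ℝ := 1 - 1 / (r : ℝ) with hκ
  have hr' : (2 : ℝ) ≤ r := by exact_mod_cast hr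
  have hκ2 : 1 / 2 ≤ κ := by
    rw [hκ]
    have : 1 / (r : ℝ) ≤ 1 / 2 := one_div_le_one_div_of_le (by norm_num) hr'
    linarith
  -- the two halves
  set p : ι → ℝ := fun i => if 0 ≤ y i then y i else 0 with hp
  set q : ι → ℝ := fun i => if 0 ≤ y i then x i else 0 with hq
  set p' : ι → ℝ := fun i => if 0 ≤ y i then 0 else -y i with hp'
  set q' : ι → ℝ := fun i => if 0 ≤ y i then 0 else x i with hq'
  have hp0 : ∀ i, 0 ≤ p i := by
    intro i; simp only [hp]; split_ifs with h
    · exact h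
    · exact le_rfl
  have hp0' : ∀ i, 0 ≤ p' i := by
    intro i; simp only [hp']; split_ifs with h
    · exact le_rfl
    · linarith [not_le.mp h]
  have h1 := Pool.Agent.Helper255.BN.planar_ineq G r (by omega) hG p q hp0
  have h2 := Pool.Agent.Helper255.BN.planar_ineq G r (by omega) hG p' q' hp0'
  set gi : ι → ℝ := fun i => if 0 ≤ y i then x i * |x i| else 0 with hgi
  set go : ι → ℝ := fun i => if 0 ≤ y i then 0 else x i * |x i| with hgo
  have hsum : ∑ i, gi i + ∑ i, go i = 0 := by
    rw [← Finset.sum_add_distrib, ← hx]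
    refine Finset.sum_congr rfl fun i _ => ?_
    simp only [hgi, hgo]; split_ifs <;> simp
  set C : ι → ι → ℝ := fun i j =>
    if (0 ≤ y i ↔ 0 ≤ y j) then 0 else (x i * x j + y i * y j) ^ 2 with hC
  -- edge terms
  have hE : ∀ i j, (if G.Adj i j then (max 0 (x i * x j + y i * y j)) ^ 2 else 0) ≤
      (if G.Adj i j then (max 0 (p i * p j + q i * q j)) ^ 2 else 0) +
      (if G.Adj i j then (max 0 (p' i * p' j + q' i * q' j)) ^ 2 else 0) +
      (1 / 2 * C i j + 1 / 2 * (gi i * go j + go i * gi j)) := by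
    intro i j
    by_cases hi : 0 ≤ y i <;> by_cases hj : 0 ≤ y j
    · simp only [hp, hq, hp', hq', hC, hgi, hgo, hi, hj, if_true]
      have : y i * y j + x i * x j = x i * x j + y i * y j := by ring
      rw [this]
      simp
    · simp only [hp, hq, hp', hq', hC, hgi, hgo, hi, hj, if_true, if_false]
      have h3 := cross_le (x i) (x j) (y i) (y j)
        (mul_nonpos_of_nonneg_of_nonpos hi (not_le.mp hj).le)
      have h4 : (if G.Adj i j then (max 0 (x i * x j + y i * y j)) ^ 2 else 0) ≤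
          (max 0 (x i * x j + y i * y j)) ^ 2 := by
        split_ifs
        · exact le_rfl
        · positivity
      simp only [mul_zero, add_zero, max_self, ne_eq, OfNat.ofNat_ne_zero, not_false_eq_true,
        zero_pow, ite_self, zero_mul, zero_add, iff_false, not_true_eq_false, if_false]
      linarith
    · simp only [hp, hq, hp', hq', hC, hgi, hgo, hi, hj, if_true, if_false]
      have h3 := cross_le (x i) (x j) (y i) (y j)
        (mul_nonpos_of_nonpos_of_nonneg (not_le.mp hi).le hj)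
      have h4 : (if G.Adj i j then (max 0 (x i * x j + y i * y j)) ^ 2 else 0) ≤
          (max 0 (x i * x j + y i * y j)) ^ 2 := by
        split_ifs
        · exact le_rfl
        · positivity
      simp only [mul_zero, add_zero, max_self, ne_eq, OfNat.ofNat_ne_zero, not_false_eq_true,
        zero_pow, ite_self, zero_mul, zero_add, false_iff, not_true_eq_false, if_false]
      linarith
    · simp only [hp, hq, hp', hq', hC, hgi, hgo, hi, hj, if_false]
      have : (-y i) * (-y j) + x i * x j = x i * x j + y i * y j := by ring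
      rw [this]
      simp
  -- total terms
  have hT : ∀ i j, (x i * x j + y i * y j) ^ 2 =
      (p i * p j + q i * q j) ^ 2 + (p' i * p' j + q' i * q' j) ^ 2 + C i j := by
    intro i j
    by_cases hi : 0 ≤ y i <;> by_cases hj : 0 ≤ y j
    · simp only [hp, hq, hp', hq', hC, hi, hj, if_true]
      ring
    · simp only [hp, hq, hp', hq', hC, hi, hj, if_true, if_false]
      simp
    · simp only [hp, hq, hp', hq', hC, hi, hj, if_true, if_false]
      simp
    · simp only [hp, hq, hp', hq', hC, hi, hj, if_false]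
      ring_nf
      simp
  have hC0 : ∀ i j, 0 ≤ C i j := by
    intro i j; simp only [hC]; split_ifs
    · exact le_rfl
    · positivity
  have hCs : 0 ≤ ∑ i, ∑ j, C i j := Finset.sum_nonneg fun i _ => Finset.sum_nonneg fun j _ => hC0 i j
  have hg : ∑ i, ∑ j, (gi i * go j + go i * gi j) ≤ 0 := by
    have e1 : ∑ i, ∑ j, (gi i * go j + go i * gi j) =
        (∑ i, gi i) * (∑ j, go j) + (∑ i, go i) * (∑ j, gi j) := by
      rw [Finset.sum_mul_sum, Finset.sum_mul_sum, ← Finset.sum_add_distrib]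
      refine Finset.sum_congr rfl fun i _ => ?_
      rw [Finset.sum_add_distrib]
    rw [e1]
    have e2 : ∑ i, go i = - ∑ i, gi i := by linarith
    rw [e2]
    nlinarith [sq_nonneg (∑ i, gi i)]
  calc ∑ i, ∑ j, (if G.Adj i j then (max 0 (x i * x j + y i * y j)) ^ 2 else 0)
      ≤ ∑ i, ∑ j, ((if G.Adj i j then (max 0 (p i * p j + q i * q j)) ^ 2 else 0) +
      (if G.Adj i j then (max 0 (p' i * p' j + q' i * q' j)) ^ 2 else 0) +
      (1 / 2 * C i j + 1 / 2 * (gi i * go j + go i * gi j))) :=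
        Finset.sum_le_sum fun i _ => Finset.sum_le_sum fun j _ => hE i j
    _ = ∑ i, ∑ j, (if G.Adj i j then (max 0 (p i * p j + q i * q j)) ^ 2 else 0) +
        ∑ i, ∑ j, (if G.Adj i j then (max 0 (p' i * p' j + q' i * q' j)) ^ 2 else 0) +
        (1 / 2 * ∑ i, ∑ j, C i j + 1 / 2 * ∑ i, ∑ j, (gi i * go j + go i * gi j)) := by
        simp only [Finset.sum_add_distrib, ← Finset.mul_sum]
    _ ≤ κ * ∑ i, ∑ j, (p i * p j + q i * q j) ^ 2 +
        κ * ∑ i, ∑ j, (p' i * p' j + q' i * q' j) ^ 2 + κ * ∑ i, ∑ j, C i j := by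
        have : 1 / 2 * ∑ i, ∑ j, C i j ≤ κ * ∑ i, ∑ j, C i j :=
          mul_le_mul_of_nonneg_right hκ2 hCs
        linarith
    _ = κ * ∑ i, ∑ j, (x i * x j + y i * y j) ^ 2 := by
        rw [← mul_add, ← mul_add]
        congr 1
        rw [← Finset.sum_add_distrib, ← Finset.sum_add_distrib]
        refine Finset.sum_congr rfl fun i _ => ?_
        rw [← Finset.sum_add_distrib, ← Finset.sum_add_distrib]
        refine Finset.sum_congr rfl fun j _ => ?_
        rw [hT i j]

/-- The inequality for arbitrary planar vectors, with positive parts on the edges. -/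
theorem main {ι : Type*} [Fintype ι] [DecidableEq ι] (G : SimpleGraph ι) [DecidableRel G.Adj]
    (r : ℕ) (hr : 2 ≤ r) (hG : G.CliqueFree (r + 1)) (v : ι → ℝ × ℝ) :
    ∑ i, ∑ j, (if G.Adj i j then (max 0 ((v i).1 * (v j).1 + (v i).2 * (v j).2)) ^ 2 else 0)
      ≤ (1 - 1 / (r : ℝ)) * ∑ i, ∑ j, ((v i).1 * (v j).1 + (v i).2 * (v j).2) ^ 2 := by
  obtain ⟨c, s, hcs, h0⟩ := exists_dir v
  have h := rotated G r hr hG (fun i => (v i).1 * c + (v i).2 * s)
    (fun i => (v i).2 * c - (v i).1 * s) h0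
  have e : ∀ i j, ((v i).1 * c + (v i).2 * s) * ((v j).1 * c + (v j).2 * s) +
      ((v i).2 * c - (v i).1 * s) * ((v j).2 * c - (v j).1 * s) =
      (v i).1 * (v j).1 + (v i).2 * (v j).2 := by
    intro i j
    have : ((v i).1 * c + (v i).2 * s) * ((v j).1 * c + (v j).2 * s) +
      ((v i).2 * c - (v i).1 * s) * ((v j).2 * c - (v j).1 * s) =
      ((v i).1 * (v j).1 + (v i).2 * (v j).2) * (c ^ 2 + s ^ 2) := by ring
    rw [this, hcs, mul_one]
  simp only [e] at h
  exact h

end Pool.Agent.H972R4.PlanarTuran
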